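import Pool.Agent.TH50.DQ.LargeDefs

/-!
# DQ-FAC: the sum of the logarithms of the factorials (job 4521 of helper50, by helper643)
-/

set_option autoImplicit false

namespace Pool.Agent.TH50.DQ

namespace Fac

open Finset

theorem log_step {k : ℕ} (hk : 1 ≤ k) :
    1 / ((k : ℝ) + 1) ≤ Real.log ((k : ℝ) + 1) - Real.log k ∧
      Real.log ((k : ℝ) + 1) - Real.log k ≤ 1 / (k : ℝ) := by
  have hk' : (0 : ℝ) < k := by exact_mod_cast hk
  have hk1 : (0 : ℝ) < (k : ℝ) + 1 := by linarith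
  rw [← Real.log_div hk1.ne' hk'.ne']
  constructor
  · have h := Real.one_sub_inv_le_log_of_pos (div_pos hk1 hk')
    have e : 1 - (((k : ℝ) + 1) / k)⁻¹ = 1 / ((k : ℝ) + 1) := by
      field_simp
      ring
    rwa [e] at h
  · have h := Real.log_le_sub_one_of_pos (div_pos hk1 hk')
    have e : ((k : ℝ) + 1) / k - 1 = 1 / k := by
      field_simp
      ring
    rwa [e] at h

theorem fac_succ (k : ℕ) : Real.log ((k + 1).factorial : ℝ) =
    Real.log (k.factorial : ℝ) + Real.log ((k : ℝ) + 1) := by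
  rw [Nat.factorial_succ]
  push_cast
  rw [Real.log_mul (by positivity) (by positivity), add_comm]

theorem upper {k : ℕ} (hk : 1 ≤ k) :
    Real.log (k.factorial : ℝ) ≤ k * Real.log k - k + Real.log k + 1 := by
  induction k, hk using Nat.le_induction with
  | base => simp
  | succ k hk ih =>
    have h := (log_step hk).1
    have hk1 : (0 : ℝ) < (k : ℝ) + 1 := by positivity
    have h2 : 1 ≤ ((k : ℝ) + 1) * (Real.log ((k : ℝ) + 1) - Real.log k) := by
      have := mul_le_mul_of_nonneg_left h hk1.le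
      rwa [mul_one_div_cancel hk1.ne'] at this
    rw [fac_succ]
    push_cast
    nlinarith

theorem lower (k : ℕ) : (k : ℝ) * Real.log k - k ≤ Real.log (k.factorial : ℝ) := by
  induction k with
  | zero => simp
  | succ k ih =>
    rw [fac_succ]
    rcases Nat.eq_zero_or_pos k with h0 | h0
    · subst h0
      simp
    · have h := (log_step h0).2
      have hk' : (0 : ℝ) < k := by exact_mod_cast h0
      have h2 : (k : ℝ) * (Real.log ((k : ℝ) + 1) - Real.log k) ≤ 1 := by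
        have := mul_le_mul_of_nonneg_left h hk'.le
        rwa [mul_one_div_cancel hk'.ne'] at this
      push_cast
      nlinarith

/-- the sum of the first log-factorials -/
theorem sum_le {N : ℕ} (hN : 1 ≤ N) :
    ∑ k ∈ range (N + 1), Real.log (k.factorial : ℝ) ≤
      (N : ℝ) ^ 2 / 2 * Real.log N - 3 / 4 * (N : ℝ) ^ 2 + 2 * N * Real.log N + 5 / 4 * N := by
  induction N, hN using Nat.le_induction with
  | base =>
    rw [sum_range_succ, sum_range_one]
    simp
    norm_num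
  | succ N hN ih =>
    rw [sum_range_succ]
    have hu := upper (k := N + 1) (by omega)
    have h := (log_step hN).1
    obtain ⟨a, ha⟩ : ∃ a : ℝ, a = Real.log ((N : ℝ) + 1) := ⟨_, rfl⟩
    obtain ⟨b, hb⟩ : ∃ b : ℝ, b = Real.log (N : ℝ) := ⟨_, rfl⟩
    push_cast at hu ih ⊢
    rw [← ha] at hu h ⊢
    rw [← hb] at h ih
    obtain ⟨x, hx⟩ : ∃ x : ℝ, x = (N : ℝ) := ⟨_, rfl⟩
    rw [← hx] at hu ih h ⊢
    have hx1 : 1 ≤ x := by rw [hx]; exact_mod_cast hN
    have ha0 : 0 ≤ a := by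
      rw [ha, ← hx]
      exact Real.log_nonneg (by linarith)
    have h2 : 1 ≤ (x + 1) * (a - b) := by
      have := mul_le_mul_of_nonneg_left h (by linarith : (0 : ℝ) ≤ x + 1)
      rwa [mul_one_div_cancel (by linarith)] at this
    have hab : 0 ≤ a - b := by
      by_contra hc
      push Not at hc
      nlinarith
    -- N ^ 2 (a - b) >= N - 1
    have h3 : x - 1 ≤ x ^ 2 * (a - b) := by
      have h4 : (x - 1) * 1 ≤ (x - 1) * ((x + 1) * (a - b)) :=
        mul_le_mul_of_nonneg_left h2 (by linarith)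
      nlinarith
    have h5 : 0 ≤ x * (a - b) := mul_nonneg (by linarith) hab
    nlinarith

theorem sum_half (f : ℕ → ℝ) (n : ℕ) :
    ∑ i ∈ range (2 * n), f (i / 2) = 2 * ∑ k ∈ range n, f k := by
  induction n with
  | zero => simp
  | succ n ih =>
    have e : 2 * (n + 1) = 2 * n + 1 + 1 := by ring
    rw [e, sum_range_succ, sum_range_succ, ih, sum_range_succ]
    have e1 : 2 * n / 2 = n := by omega
    have e2 : (2 * n + 1) / 2 = n := by omega
    rw [e1, e2]
    ring

end Fac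

theorem A_fac : S_fac := by
  refine ⟨200, by norm_num, fun n hn m hm1 hm2 => ?_⟩
  have hn0 : (0 : ℝ) < n := by
    have : 0 < n := by omega
    exact_mod_cast this
  have hn2 : (2 : ℝ) ≤ n := by exact_mod_cast hn
  -- the first sum
  have h1 : ∑ i ∈ Finset.range m, 4 * Real.log ((i / 2).factorial : ℝ) ≤
      8 * ∑ k ∈ Finset.range (2 * n + 1), Real.log (k.factorial : ℝ) := by
    have h2 : ∑ i ∈ Finset.range m, 4 * Real.log ((i / 2).factorial : ℝ) ≤
        ∑ i ∈ Finset.range (2 * (2 * n + 1)), 4 * Real.log ((i / 2).factorial : ℝ) := by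
      refine Finset.sum_le_sum_of_subset_of_nonneg ?_ ?_
      · exact Finset.range_subset_range.2 (by omega)
      · intro i _ _
        refine mul_nonneg (by norm_num) (Real.log_nonneg ?_)
        exact_mod_cast Nat.one_le_iff_ne_zero.2 (Nat.factorial_ne_zero _)
    refine h2.trans (le_of_eq ?_)
    rw [Fac.sum_half (fun k => 4 * Real.log (k.factorial : ℝ)), ← Finset.mul_sum]
    ring
  have h3 := Fac.sum_le (N := 2 * n) (by omega)
  -- the second term
  have h4 := Fac.upper (k := 2 * n) (by omega)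
  have h5 := Fac.lower (5 * n)
  obtain ⟨A, hA⟩ : ∃ A : ℝ, A = Real.log ((2 * n).factorial : ℝ) := ⟨_, rfl⟩
  obtain ⟨B, hB⟩ : ∃ B : ℝ, B = Real.log ((5 * n).factorial : ℝ) := ⟨_, rfl⟩
  rw [← hA] at h4 ⊢
  rw [← hB] at h5 ⊢
  have hAB : A - B ≤ 0 := by
    rw [hA, hB, sub_nonpos]
    apply Real.log_le_log
    · exact_mod_cast Nat.factorial_pos _
    · exact_mod_cast Nat.factorial_le (by omega)
  have hm : (4 * n - 1 : ℝ) ≤ m := by
    have : 4 * n ≤ m + 1 := by omega
    have : (4 * n : ℝ) ≤ m + 1 := by exact_mod_cast this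
    linarith
  have h6 : (m : ℝ) * (A - B) ≤ (4 * n - 1) * (A - B) :=
    mul_le_mul_of_nonpos_right hm hAB
  obtain ⟨L, hL⟩ : ∃ L : ℝ, L = Real.log (n : ℝ) := ⟨_, rfl⟩
  obtain ⟨u, hu⟩ : ∃ u : ℝ, u = Real.log 2 := ⟨_, rfl⟩
  obtain ⟨v, hv⟩ : ∃ v : ℝ, v = Real.log 5 := ⟨_, rfl⟩
  have l2 : Real.log ((2 * n : ℕ) : ℝ) = u + L := by
    push_cast
    rw [Real.log_mul (by norm_num) hn0.ne', hu, hL]
  have l5 : Real.log ((5 * n : ℕ) : ℝ) = v + L := by
    push_cast
    rw [Real.log_mul (by norm_num) hn0.ne', hv, hL]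
  rw [l2] at h3 h4
  rw [l5] at h5
  push_cast at h3 h4 h5
  have u1 : 0.6931471803 < u := by rw [hu]; exact Real.log_two_gt_d9
  have u2 : u < 0.6931471808 := by rw [hu]; exact Real.log_two_lt_d9
  have v2 : v ≤ 4 := by
    rw [hv]
    have := Real.log_le_sub_one_of_pos (show (0 : ℝ) < 5 by norm_num)
    linarith
  have v1 : 7 * u - 0.024 ≤ 3 * v := by
    have e1 : 3 * v = Real.log (5 ^ 3) := by rw [Real.log_pow, hv]; norm_num
    have e2 : 7 * u = Real.log (2 ^ 7) := by rw [Real.log_pow, hu]; norm_num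
    have h7 := Real.one_sub_inv_le_log_of_pos (show (0 : ℝ) < 5 ^ 3 / 2 ^ 7 by norm_num)
    rw [Real.log_div (by norm_num) (by norm_num)] at h7
    rw [e1, e2]
    norm_num at h7 ⊢
    linarith
  have hL1 : u ≤ L := by
    rw [hu, hL]
    exact Real.log_le_log (by norm_num) hn2
  have h8 : (4 * (n : ℝ) - 1) * (A - B) ≤ (4 * n - 1) *
      (2 * n * (u + L) - 2 * n + (u + L) + 1 - (5 * n * (v + L) - 5 * n)) := by
    apply mul_le_mul_of_nonneg_left _ (by linarith)
    linarith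
  have key : 8 * ((2 * (n : ℝ)) ^ 2 / 2 * (u + L) - 3 / 4 * (2 * n) ^ 2 +
      2 * (2 * n) * (u + L) + 5 / 4 * (2 * n)) + (4 * n - 1) *
      (2 * n * (u + L) - 2 * n + (u + L) + 1 - (5 * n * (v + L) - 5 * n)) ≤
      4 * (n : ℝ) ^ 2 * L - 27.5 * (n : ℝ) ^ 2 + 200 * n * L := by
    have e1 : 8 * ((2 * (n : ℝ)) ^ 2 / 2 * (u + L) - 3 / 4 * (2 * n) ^ 2 +
        2 * (2 * n) * (u + L) + 5 / 4 * (2 * n)) + (4 * n - 1) *
        (2 * n * (u + L) - 2 * n + (u + L) + 1 - (5 * n * (v + L) - 5 * n)) =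
        4 * (n : ℝ) ^ 2 * L + (24 * u - 20 * v - 12) * (n : ℝ) ^ 2 + 39 * (n * L) +
          (34 * u + 5 * v + 21) * n - (u + L) - 1 := by ring
    rw [e1]
    have q1 : (24 * u - 20 * v - 12) * (n : ℝ) ^ 2 ≤ -27.5 * (n : ℝ) ^ 2 := by
      apply mul_le_mul_of_nonneg_right _ (sq_nonneg _)
      linarith
    have q2 : (34 * u + 5 * v + 21) * (n : ℝ) ≤ 161 * (n * L) := by
      have q3 : (n : ℝ) * u ≤ n * L := mul_le_mul_of_nonneg_left hL1 hn0.le
      have q4 : (34 * u + 5 * v + 21) * (n : ℝ) ≤ (161 * u) * n := by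
        apply mul_le_mul_of_nonneg_right _ hn0.le
        linarith
      linarith
    have q5 : 0 ≤ u + L := by linarith
    linarith
  have h9 : 8 * ∑ k ∈ Finset.range (2 * n + 1), Real.log (k.factorial : ℝ) ≤
      8 * ((2 * (n : ℝ)) ^ 2 / 2 * (u + L) - 3 / 4 * (2 * n) ^ 2 +
      2 * (2 * n) * (u + L) + 5 / 4 * (2 * n)) :=
    mul_le_mul_of_nonneg_left h3 (by norm_num)
  rw [← hL]
  linarith

end Pool.Agent.TH50.DQ
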